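import Pool.Agent.Lib.HS76.Pt

/-! The algebraic lemma for a curvature tensor that is symmetric in one pair of slots only. -/

open scoped ComplexOrder Matrix Topology
open Finset Filter

namespace Pool.Agent.Lib.N86

open Pool.Agent.Lib.HS76

theorem lim0 {f : ℝ → ℝ} (hf : Continuous f) (h : ∀ t, 0 < t → f t ≤ 0) : f 0 ≤ 0 :=
  le_of_tendsto ((hf.tendsto 0).mono_left nhdsWithin_le_nhds : Tendsto f (𝓝[>] 0) _)
    (eventually_nhdsWithin_of_forall h)

theorem poly4 {a b c d : ℝ} (h : ∀ t : ℝ, a * t + b * t ^ 2 + c * t ^ 3 + d * t ^ 4 ≤ 0) :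
    a = 0 ∧ b ≤ 0 ∧ (b = 0 → c = 0) := by
  have k : ∀ a b c d : ℝ, (∀ t : ℝ, 0 < t → t * (a + b * t + c * t ^ 2 + d * t ^ 3) ≤ 0) →
      a ≤ 0 := fun a b c d h => by
    simpa using lim0 (f := fun t => a + b * t + c * t ^ 2 + d * t ^ 3) (by fun_prop)
      fun t ht => nonpos_of_mul_nonpos_right (h t ht) ht
  have a0 : a = 0 := le_antisymm (k a b c d fun t _ => by linarith [h t])
    (by linarith [k (-a) b (-c) d fun t _ => by linarith [h (-t)]])
  subst a0
  refine ⟨rfl, k b c d 0 fun t ht => nonpos_of_mul_nonpos_right (a := t) (by linarith [h t]) ht,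
    fun b0 => ?_⟩
  subst b0
  have k1 := k c d 0 0 fun t ht =>
    nonpos_of_mul_nonpos_right (a := t ^ 2) (by linarith [h t]) (by positivity)
  have k2 := k (-c) d 0 0 fun t ht =>
    nonpos_of_mul_nonpos_right (a := t ^ 2) (by linarith [h (-t)]) (by positivity)
  linarith

section abs

variable {V : Type*} [AddCommGroup V] [Module ℂ V]

/-- A function that vanishes on a frame and whose zero set is a subspace vanishes. -/
theorem span_zero {ι : Type*} [Fintype ι] {e : ι → V} (he : ∀ w, ∃ c : ι → ℂ, w = ∑ a, c a • e a)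
    {p : V → Prop} (h0 : p 0) (h1 : ∀ x y, p x → p y → p (x + y))
    (h2 : ∀ (c : ℂ) a, p (c • e a)) (w : V) : p w := by
  obtain ⟨c, rfl⟩ := he w
  exact Finset.sum_induction _ p h1 h0 fun a _ => h2 _ a

variable {g : V → V → V → V → ℂ}

theorem orders (hg : K4 g) (hs : ∀ x y v w, star (g x y v w) = g y x w v)
    (hH : ∀ v, (g v v v v).re ≤ 0) {x : V} (hx : (g x x x x).re = 0) (w : V) :
    (g x x w w).re ≤ 0 ∧ ((g x x w w).re = 0 → g x w w w = 0) := by
  have p : ∀ z : ℂ, z * star z = 1 → ∀ t : ℝ,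
      (z * (2 * g w x x x) + star z * (2 * g x w x x)).re * t +
      (z ^ 2 * g w x w x + 4 * g x x w w + star z ^ 2 * g x w x w).re * t ^ 2 +
      (z * (2 * g w w w x) + star z * (2 * g w w x w)).re * t ^ 3 +
      (g w w w w).re * t ^ 4 ≤ 0 := fun z hz t => by
    have h := hH (x + ((t : ℂ) * z) • w)
    have e : g (x + ((t : ℂ) * z) • w) (x + ((t : ℂ) * z) • w) (x + ((t : ℂ) * z) • w)
        (x + ((t : ℂ) * z) • w) = g x x x x +
        ((t : ℝ) : ℂ) * (z * (2 * g w x x x) + star z * (2 * g x w x x)) +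
        ((t ^ 2 : ℝ) : ℂ) * (z ^ 2 * g w x w x + 4 * g x x w w + star z ^ 2 * g x w x w) +
        ((t ^ 3 : ℝ) : ℂ) * (z * (2 * g w w w x) + star z * (2 * g w w x w)) +
        ((t ^ 4 : ℝ) : ℂ) * g w w w w := by
      rw [hg.expand4, star_mul', Complex.star_def, Complex.conj_ofReal]
      rw [Complex.star_def] at hz
      push_cast
      linear_combination (4 * t ^ 2 * g x x w w + 2 * t ^ 3 * z * g w w w x +
        2 * t ^ 3 * (starRingEnd ℂ) z * g w w x w +
        t ^ 4 * (z * (starRingEnd ℂ) z + 1) * g w w w w) * hz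
    rw [e] at h
    simp only [Complex.add_re, Complex.re_ofReal_mul, hx] at h ⊢
    linarith
  have p1 := poly4 (p 1 (by simp))
  have p2 := poly4 (p Complex.I (by simp))
  have s := hs w w x w
  simp only [star_one, one_pow, one_mul, Complex.star_def, Complex.conj_I, even_two, Even.neg_pow,
    Complex.I_sq, Complex.add_re, Complex.mul_re, Complex.neg_re, Complex.neg_im, Complex.one_re,
    Complex.one_im, Complex.I_re, Complex.I_im, Complex.mul_im, Complex.re_ofNat,
    Complex.im_ofNat] at p1 p2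
  refine ⟨by linarith [p1.2.1, p2.2.1], fun h0 => ?_⟩
  have q1 := p1.2.2 (by linarith [p1.2.1, p2.2.1])
  have q2 := p2.2.2 (by linarith [p1.2.1, p2.2.1])
  have s1 := congrArg Complex.re s
  have s2 := congrArg Complex.im s
  simp only [Complex.star_def, Complex.conj_re, Complex.conj_im] at s1 s2
  rw [hg.s13]
  exact Complex.ext (by simp only [Complex.zero_re]; linarith)
    (by simp only [Complex.zero_im]; linarith)

theorem polar3 (hg : K4 g) {x : V} (h : ∀ w, g x w w w = 0) (b c d : V) : g x b c d = 0 := by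
  have s1 : ∀ b c, g x b c b = 0 := fun b c => by
    have g1 := h (c + (1 : ℂ) • b)
    have g2 := h (c + (-1 : ℂ) • b)
    have g3 := h (c + Complex.I • b)
    have g4 := h (c + (-Complex.I) • b)
    simp only [hg.add2, hg.add3, hg.add4, hg.smul2, hg.smul3, hg.smul4, h, star_neg, star_one,
      Complex.star_def, Complex.conj_I] at g1 g2 g3 g4
    have h2 : Complex.I ^ 2 = -1 := Complex.I_sq
    linear_combination (1 / 4 : ℂ) * (g1 + g2 - g3 - g4) +
      (1 / 2 : ℂ) * (g x b c b - g x c b b - g x b b c) * h2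
  have := s1 (b + d) c
  simp only [hg.add2, hg.add4, s1] at this
  rw [hg.s24 x d c b] at this
  linear_combination (1 / 2 : ℂ) * this

/-- A form with four slots that is symmetric in slots one and three. -/
structure K3 (f : V → V → V → V → ℂ) : Prop where
  add1 : ∀ x x' y v w, f (x + x') y v w = f x y v w + f x' y v w
  smul1 : ∀ (c : ℂ) x y v w, f (c • x) y v w = c * f x y v w
  add2 : ∀ x y y' v w, f x (y + y') v w = f x y v w + f x y' v w
  smul2 : ∀ (c : ℂ) x y v w, f x (c • y) v w = star c * f x y v w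
  add4 : ∀ x y v w w', f x y v (w + w') = f x y v w + f x y v w'
  smul4 : ∀ (c : ℂ) x y v w, f x y v (c • w) = star c * f x y v w
  s13 : ∀ x y v w, f x y v w = f v y x w

/-- The Hermitian part of the symmetrisation. -/
def sy (f : V → V → V → V → ℂ) (x y v w : V) : ℂ :=
  f x y v w + f x w v y + star (f y x w v) + star (f y v w x)

variable {f : V → V → V → V → ℂ}

theorem K3.k4 (h : K3 f) : K4 (sy f) where
  add1 x x' y v w := by simp only [sy, h.add1, h.add2, h.add4, star_add]; ring
  smul1 c x y v w := by simp only [sy, h.smul1, h.smul2, h.smul4, star_mul', star_star]; ring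
  add2 x y y' v w := by simp only [sy, h.add1, h.add2, h.add4, star_add]; ring
  smul2 c x y v w := by simp only [sy, h.smul1, h.smul2, h.smul4, star_mul']; ring
  s13 x y v w := by simp only [sy]; rw [h.s13 x y, h.s13 x w]; ring
  s24 x y v w := by simp only [sy]; rw [h.s13 y x, h.s13 y v]; ring

omit [AddCommGroup V] [Module ℂ V] in
theorem sy_herm (f : V → V → V → V → ℂ) (x y v w : V) : star (sy f x y v w) = sy f y x w v := by
  simp only [sy, star_add, star_star]; ring

theorem K3.re2 (h : K3 f) (x w : V) :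
    (sy f x x w w).re = 2 * ((f x x w w).re + (f w w x x).re) := by
  simp only [sy, Complex.add_re, Complex.star_def, Complex.conj_re]
  rw [h.s13 x w w x]; ring

theorem K3.roy (h : K3 f) (hH : ∀ v, (f v v v v).re ≤ 0) {ι : Type*} [Fintype ι] (w : ι → V) :
    2 * ∑ a, ∑ b, (f (w a) (w a) (w b) (w b)).re ≤ ∑ a, (f (w a) (w a) (w a) (w a)).re := by
  have r := h.k4.royden (fun v => by rw [h.re2]; linarith [hH v]) w
  simp only [Complex.re_sum, h.re2, mul_add, sum_add_distrib, ← mul_sum] at r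
  rw [sum_comm (f := fun a b => (f (w b) (w b) (w a) (w a)).re)] at r
  linarith

/-- The lemma in a frame. -/
theorem K3.frame (h : K3 f) (hH : ∀ v, (f v v v v).re ≤ 0) {ι : Type*} [Fintype ι] {e : ι → V}
    (he : ∀ w, ∃ c : ι → ℂ, w = ∑ a, c a • e a) {lam : ι → ℝ} (hl : ∀ i, 0 ≤ lam i)
    (hA : ∀ a b c d, (lam c : ℂ) * f (e a) (e b) (e c) (e d) =
      lam d * star (f (e b) (e a) (e d) (e c)))
    (h0 : 0 ≤ ∑ a, ∑ i, lam a * lam i * (f (e a) (e a) (e i) (e i)).re)
    (h1 : 0 ≤ ∑ i, ∑ a, lam i * ((f (e i) (e i) (e a) (e a)).re + (f (e a) (e a) (e i) (e i)).re))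
    (a : ι) (ha : lam a ≠ 0) (y v w : V) : f (e a) y v w = 0 := by
  have hg := h.k4
  have gH : ∀ v, (sy f v v v v).re ≤ 0 := fun v => by rw [h.re2]; linarith [hH v]
  have sc : ∀ (s t : ℝ) (v w : V), (f ((s : ℂ) • v) ((s : ℂ) • v) ((t : ℂ) • w) ((t : ℂ) • w)).re =
      s ^ 2 * t ^ 2 * (f v v w w).re := by
    intro s t v w
    rw [h.smul1, h.smul2, h.smul4, h.s13, h.smul1, h.s13]
    simp only [Complex.star_def, Complex.conj_ofReal, Complex.re_ofReal_mul]
    ring
  have r := h.roy hH fun i => ((Real.sqrt (lam i) : ℝ) : ℂ) • e i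
  simp only [sc, Real.sq_sqrt (hl _)] at r
  have z : ∀ i, lam i ≠ 0 → (sy f (e i) (e i) (e i) (e i)).re = 0 := fun i hi => by
    have hn : ∀ i ∈ (univ : Finset ι), lam i * lam i * (f (e i) (e i) (e i) (e i)).re ≤ 0 :=
      fun i _ => mul_nonpos_of_nonneg_of_nonpos (mul_self_nonneg _) (hH _)
    have := (sum_eq_zero_iff_of_nonpos hn).mp (le_antisymm (sum_nonpos hn) (by linarith)) i
      (mem_univ i)
    rw [h.re2, (mul_eq_zero.mp this).resolve_left (mul_ne_zero hi hi)]; ring
  have n2 : ∀ i j,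
      lam i * ((f (e i) (e i) (e j) (e j)).re + (f (e j) (e j) (e i) (e i)).re) ≤ 0 := fun i j => by
    by_cases hi : lam i = 0
    · rw [hi, zero_mul]
    · have := (orders hg (sy_herm f) gH (z i hi) (e j)).1
      rw [h.re2] at this
      exact mul_nonpos_of_nonneg_of_nonpos (hl i) (by linarith)
  have z2 : ∀ i, lam i ≠ 0 → ∀ j, (sy f (e i) (e i) (e j) (e j)).re = 0 := fun i hi j => by
    have s1 := (sum_eq_zero_iff_of_nonpos fun i _ => sum_nonpos fun j _ => n2 i j).mp
      (le_antisymm (sum_nonpos fun i _ => sum_nonpos fun j _ => n2 i j) h1) i (mem_univ i)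
    have s2 := (sum_eq_zero_iff_of_nonpos fun j _ => n2 i j).mp s1 j (mem_univ j)
    rw [h.re2, (mul_eq_zero.mp s2).resolve_left hi, mul_zero]
  have z3 : ∀ i, lam i ≠ 0 → ∀ b c d, sy f (e i) b c d = 0 := fun i hi => by
    refine polar3 hg fun w => (orders hg (sy_herm f) gH (z i hi) w).2 ?_
    refine span_zero he (p := fun w => (sy f (e i) (e i) w w).re = 0) (by simp [hg.zero4])
      (fun x y hx hy => ?_) (fun c a => ?_) w
    · have o1 := (orders hg (sy_herm f) gH (z i hi) (x + y)).1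
      have o2 := (orders hg (sy_herm f) gH (z i hi) (x + (-1 : ℂ) • y)).1
      simp only [hg.add3, hg.add4, hg.smul3, hg.smul4, star_neg, star_one, Complex.add_re,
        neg_mul, one_mul, neg_neg, Complex.neg_re] at o1 o2 ⊢
      linarith
    · show (sy f (e i) (e i) (c • e a) (c • e a)).re = 0
      rw [hg.smul3, hg.smul4, ← mul_assoc, Complex.star_def, Complex.mul_conj,
        Complex.re_ofReal_mul, z2 i hi, mul_zero]
  have t1 : ∀ b c d, ((lam d + lam a + lam c : ℝ) : ℂ) * f (e a) (e b) (e c) (e d) +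
      lam d * f (e a) (e d) (e c) (e b) = 0 := fun b c d => by
    have u := z3 a ha (e b) (e c) (e d)
    have u1 := hA a b c d
    have u2 := hA c b a d
    rw [h.s13 (e c)] at u2
    simp only [sy] at u
    push_cast
    linear_combination (lam d : ℂ) * u + u1 + u2
  have t2 : ∀ b c d, f (e a) (e b) (e c) (e d) = 0 := fun b c d => by
    have u1 := t1 b c d
    have u2 := t1 d c b
    have hp : 0 < (lam d + lam a + lam c) * (lam b + lam a + lam c) - lam d * lam b := by
      have := lt_of_le_of_ne (hl a) (Ne.symm ha)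
      nlinarith [hl b, hl c, hl d, mul_nonneg (hl b) (hl c), mul_nonneg (hl d) (hl c),
        mul_pos this this, mul_nonneg this.le (hl b), mul_nonneg this.le (hl c),
        mul_nonneg this.le (hl d), mul_self_nonneg (lam c)]
    have : (((lam d + lam a + lam c) * (lam b + lam a + lam c) - lam d * lam b : ℝ) : ℂ) *
        f (e a) (e b) (e c) (e d) = 0 := by
      push_cast at u1 u2 ⊢
      linear_combination ((lam b : ℂ) + lam a + lam c) * u1 - (lam d : ℂ) * u2
    exact (mul_eq_zero.mp this).resolve_left (by exact_mod_cast hp.ne')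
  have z0 : ∀ c : ℂ, ∀ x : V, (0 : V) = (0 : ℂ) • x := fun _ x => (zero_smul ℂ x).symm
  refine span_zero he (p := fun y => f (e a) y v w = 0) (by rw [z0 0 v, h.smul2]; simp)
    (fun x y hx hy => by rw [h.add2, hx, hy, add_zero]) (fun c b => ?_) y
  refine h.smul2 _ _ _ _ _ |>.trans (mul_eq_zero_of_right _ ?_)
  refine span_zero he (p := fun w => f (e a) (e b) v w = 0) (by rw [z0 0 v, h.smul4]; simp)
    (fun x y hx hy => by rw [h.add4, hx, hy, add_zero]) (fun c d => ?_) w
  refine h.smul4 _ _ _ _ _ |>.trans (mul_eq_zero_of_right _ ?_)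
  rw [h.s13]
  refine span_zero he (p := fun v => f v (e b) (e a) (e d) = 0) (by rw [z0 0 v, h.smul1]; simp)
    (fun x y hx hy => by rw [h.add1, hx, hy, add_zero]) (fun c i => ?_) v
  exact h.smul1 _ _ _ _ _ |>.trans (mul_eq_zero_of_right _ ((h.s13 _ _ _ _).trans (t2 b i d)))

end abs

section mat

variable {n : Type*} [Fintype n] [DecidableEq n]

omit [DecidableEq n] in
theorem k3_q4 {R : n → n → n → n → ℂ} (h13 : ∀ k l i j, R k l i j = R i l k j) : K3 (q4 R) where
  add1 x x' y v w := by simp only [q4, Pi.add_apply, add_mul, sum_add_distrib]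
  smul1 c x y v w := by simp only [q4, Pi.smul_apply, smul_eq_mul, mul_sum, mul_assoc]
  add2 x y y' v w := by simp only [q4, Pi.add_apply, star_add, add_mul, mul_add, sum_add_distrib]
  smul2 c x y v w := by
    simp only [q4, Pi.smul_apply, smul_eq_mul, mul_sum, star_mul']
    exact sum_congr rfl fun k _ => sum_congr rfl fun l _ => sum_congr rfl fun i _ =>
      sum_congr rfl fun j _ => by ring
  add4 x y v w w' := by simp only [q4, Pi.add_apply, star_add, add_mul, mul_add, sum_add_distrib]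
  smul4 c x y v w := by
    simp only [q4, Pi.smul_apply, smul_eq_mul, mul_sum, star_mul']
    exact sum_congr rfl fun k _ => sum_congr rfl fun l _ => sum_congr rfl fun i _ =>
      sum_congr rfl fun j _ => by ring
  s13 x y v w := by
    unfold q4
    rw [sum_comm]
    conv_rhs => rw [sum_comm]
    refine sum_congr rfl fun l _ => ?_
    rw [sum_comm]
    refine sum_congr rfl fun k _ => sum_congr rfl fun i _ => sum_congr rfl fun j _ => ?_
    rw [h13 i l k j]; ring

variable {h ξ : Matrix n n ℂ} {T : n → n → Matrix n n ℂ}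

omit [DecidableEq n] in
theorem r13 (h : Matrix n n ℂ) (hs : ∀ k l i j, T k l i j = T j l i k) (k l i j : n) :
    (h * T k l) j i = (h * T i l) j k := by
  simp only [Matrix.mul_apply]
  exact sum_congr rfl fun m _ => by rw [hs k l m i]

omit [DecidableEq n] in
theorem q2_tr (h : Matrix n n ℂ) (T : n → n → Matrix n n ℂ) (A B : Matrix n n ℂ) :
    ∑ k, ∑ l, A k l * (B * h * T k l).trace = q2 (fun k l i j => (h * T k l) j i) A B := by
  rw [q2_fam (fun k l => h * T k l)]
  simp only [Matrix.mul_assoc]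

omit [DecidableEq n] in
/-- The inequality of Royden. -/
theorem roy (hs : ∀ k l i j, T k l i j = T j l i k)
    (hH : ∀ v : n → ℂ, (∑ k, ∑ l, v k * star (v l) * (star v ⬝ᵥ (h * T k l) *ᵥ v)).re ≤ 0)
    (hξ : ξ.PosSemidef) : (∑ k, ∑ l, ξ k l * (ξ * h * T k l).trace).re ≤ 0 := by
  obtain ⟨W, hW⟩ := psd_eq_mul hξ
  have w : ∀ k l, ξ k l = ∑ a, (fun a k => W k a) a k * star ((fun a k => W k a) a l) :=
    fun k l => by rw [hW, Matrix.mul_apply]; rfl
  have hH' : ∀ v, (q4 (fun k l i j => (h * T k l) j i) v v v v).re ≤ 0 := fun v => by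
    rw [q4_fam (fun k l => h * T k l)]; exact hH v
  have := (k3_q4 (R := fun k l i j => (h * T k l) j i) (r13 h hs)).roy hH' fun a k => W k a
  rw [q2_tr, q2_eq_sum _ _ _ w w]
  simp only [Complex.re_sum]
  linarith [sum_nonpos fun a (_ : a ∈ univ) => hH' fun k => W k a]

/-- The algebraic lemma. -/
theorem alg (hh : h.PosDef) (hξ : ξ.PosSemidef) (hs : ∀ k l i j, T k l i j = T j l i k)
    (hH : ∀ v : n → ℂ, (∑ k, ∑ l, v k * star (v l) * (star v ⬝ᵥ (h * T k l) *ᵥ v)).re ≤ 0)
    (hA : ∀ k l, T k l * ξ = ξ * (T l k)ᴴ)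
    (h0 : 0 ≤ (∑ k, ∑ l, ξ k l * (ξ * h * T k l).trace).re)
    (h1 : 0 ≤ (∑ k, ∑ l, ξ k l * (h⁻¹ * h * T k l).trace).re +
      (∑ k, ∑ l, h⁻¹ k l * (ξ * h * T k l).trace).re) :
    (∀ k l, T k l * ξ = 0) ∧ ∀ m l, ∑ k, ξ k m • T k l = 0 := by
  have hB : (h * ξ * h).PosSemidef := by
    have := hξ.conjTranspose_mul_mul_same h
    rwa [hh.1.eq] at this
  obtain ⟨W, lam, w0, h2⟩ := simul_diag hh hB.1
  have h3 : W * (Wᴴ * h) = 1 := mul_eq_one_comm.mp w0
  have h4 : h * (W * Wᴴ) = 1 := by
    rw [mul_eq_one_comm, Matrix.mul_assoc, h3]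
  have hinv : h⁻¹ = W * Wᴴ := Matrix.inv_eq_right_inv h4
  have hQ : ξ * h * W = W * Matrix.diagonal fun i => (lam i : ℂ) := by
    rw [← h2]
    simp only [← Matrix.mul_assoc] at h3 ⊢
    rw [h3, Matrix.one_mul]
  have hx : ξ = W * (Matrix.diagonal fun i => (lam i : ℂ)) * Wᴴ := by
    rw [← hQ, Matrix.mul_assoc, Matrix.mul_assoc, h4, Matrix.mul_one]
  have hl : ∀ i, 0 ≤ lam i := fun i => by
    have := (hB.conjTranspose_mul_mul_same W).diag_nonneg (i := i)
    rw [h2, Matrix.diagonal_apply_eq] at this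
    exact_mod_cast this
  set e : n → n → ℂ := fun a k => W k a with he
  set R : n → n → n → n → ℂ := fun k l i j => (h * T k l) j i with hR
  have k3 : K3 (q4 R) := k3_q4 (r13 h hs)
  have w1 : ∀ k l, h⁻¹ k l = ∑ a, e a k * star (e a l) := fun k l => by
    rw [hinv, Matrix.mul_apply]; rfl
  have w2 : ∀ k l, ξ k l = ∑ a, (((Real.sqrt (lam a) : ℝ) : ℂ) • e a) k *
      star ((((Real.sqrt (lam a) : ℝ) : ℂ) • e a) l) := fun k l => by
    rw [hx, Matrix.mul_apply]
    refine sum_congr rfl fun a _ => ?_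
    have : (lam a : ℂ) = ((Real.sqrt (lam a) : ℝ) : ℂ) * ((Real.sqrt (lam a) : ℝ) : ℂ) := by
      rw [← Complex.ofReal_mul, Real.mul_self_sqrt (hl a)]
    simp only [Matrix.mul_diagonal, Matrix.conjTranspose_apply, Pi.smul_apply, smul_eq_mul,
      star_mul', Complex.star_def, Complex.conj_ofReal, he]
    linear_combination W k a * (starRingEnd ℂ) (W l a) * this
  have s3 : ∀ (c : ℂ) x y v w, q4 R x y (c • v) w = c * q4 R x y v w := fun c x y v w => by
    rw [k3.s13, k3.smul1, k3.s13]
  have sc : ∀ (s : ℝ) x v w, (q4 R ((s : ℂ) • x) ((s : ℂ) • x) v w).re =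
      s ^ 2 * (q4 R x x v w).re := fun s x v w => by
    rw [k3.smul1, k3.smul2]
    simp only [Complex.star_def, Complex.conj_ofReal, Complex.re_ofReal_mul]; ring
  have sd : ∀ (s : ℝ) x v w, (q4 R v w ((s : ℂ) • x) ((s : ℂ) • x)).re =
      s ^ 2 * (q4 R v w x x).re := fun s x v w => by
    rw [s3, k3.smul4]
    simp only [Complex.star_def, Complex.conj_ofReal, Complex.re_ofReal_mul]; ring
  have ev : ∀ i, (ξ * h) *ᵥ e i = (lam i : ℂ) • e i := fun i => by
    ext k
    have := congrFun (congrFun hQ k) i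
    rw [Matrix.mul_diagonal, Matrix.mul_apply] at this
    simpa [Matrix.mulVec, dotProduct, he, mul_comm] using this
  have f1 : ∀ x y v w, q4 R x y ((ξ * h) *ᵥ v) w = star (q4 R y x ((ξ * h) *ᵥ w) v) := by
    intro x y v w
    rw [hR, q4_fam (fun k l => h * T k l), q4_fam (fun k l => h * T k l), star_sum, sum_comm]
    refine sum_congr rfl fun l _ => ?_
    rw [star_sum]
    refine sum_congr rfl fun k _ => ?_
    have m : (h * T l k * (ξ * h))ᴴ = h * T k l * (ξ * h) := by
      rw [Matrix.mul_assoc h (T k l), ← Matrix.mul_assoc (T k l), hA k l]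
      simp only [Matrix.conjTranspose_mul, hh.1.eq, hξ.1.eq, Matrix.mul_assoc]
    rw [Matrix.mulVec_mulVec, Matrix.mulVec_mulVec, ← m, star_mul', star_mul', star_star,
      ← Matrix.star_dotProduct_star, star_star, Matrix.star_mulVec, ← Matrix.dotProduct_mulVec,
      mul_comm (x k)]
  have sp : ∀ w : n → ℂ, w = ∑ a, ((Wᴴ * h) *ᵥ w) a • e a := fun w => by
    ext k
    have := congrFun (congrArg (· *ᵥ w) h3) k
    rw [← Matrix.mulVec_mulVec, Matrix.one_mulVec] at this
    rw [← this, Finset.sum_apply]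
    exact sum_congr rfl fun a _ => mul_comm _ _
  rw [q2_tr, q2_eq_sum R _ _ w2 w2] at h0
  rw [q2_tr, q2_tr, q2_eq_sum R _ _ w2 w1, q2_eq_sum R _ _ w1 w2] at h1
  simp only [Complex.re_sum, sc, sd, Real.sq_sqrt (hl _)] at h0 h1
  have key := k3.frame (fun v => by rw [hR, q4_fam (fun k l => h * T k l)]; exact hH v)
    (fun w => ⟨_, sp w⟩) hl
    (fun a b c d => by
      have := f1 (e a) (e b) (e c) (e d)
      rwa [ev, ev, s3, s3, star_mul', Complex.star_def, Complex.conj_ofReal] at this)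
    (by simpa only [mul_assoc] using h0)
    (by
      simp only [mul_add, sum_add_distrib]
      rwa [sum_comm (f := fun i a => lam i * (q4 R (e a) (e a) (e i) (e i)).re)])
  have z : ∀ x y v w, q4 R x y ((ξ * h) *ᵥ v) w = 0 := fun x y =>
    fun v w => span_zero (fun w => ⟨_, sp w⟩) (p := fun v => q4 R x y ((ξ * h) *ᵥ v) w = 0)
      (by simp [q4])
      (fun a b ha hb => by
        rw [Matrix.mulVec_add, k3.s13, k3.add1, ← k3.s13 x, ← k3.s13 x, ha, hb, add_zero])
      (fun c a => by
        rw [Matrix.mulVec_smul, s3, ev, s3]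
        by_cases ha : lam a = 0
        · simp [ha]
        · rw [k3.s13, key a ha, mul_zero, mul_zero]) v
  have hd : IsUnit h.det := hh.det_pos.ne'.isUnit
  have c1 : ∀ k l, T k l * ξ = 0 := fun k l => by
    have : h * T k l * (ξ * h) = 0 := by
      ext j i
      have h1 := z (Pi.single k 1) (Pi.single l 1) (Pi.single i 1) (Pi.single j 1)
      rw [hR, q4_fam (fun k l => h * T k l), sum_eq_single k (by
        intro b _ hb; simp [Pi.single_eq_of_ne hb]) (by simp), sum_eq_single l (by
        intro b _ hb; simp [Pi.single_eq_of_ne hb]) (by simp), Matrix.mulVec_mulVec] at h1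
      simpa [← Pi.single_star] using h1
    calc T k l * ξ = h⁻¹ * (h * T k l * (ξ * h)) * h⁻¹ := by
          rw [Matrix.mul_assoc h, Matrix.nonsing_inv_mul_cancel_left _ _ hd, ← Matrix.mul_assoc,
            Matrix.mul_nonsing_inv_cancel_right _ _ hd]
      _ = 0 := by rw [this, Matrix.mul_zero, Matrix.zero_mul]
  refine ⟨c1, fun m l => ?_⟩
  ext i j
  have := congrFun (congrFun (c1 j l) i) m
  rw [Matrix.mul_apply] at this
  rw [Matrix.sum_apply]
  exact (sum_congr rfl fun k _ => by
    rw [Matrix.smul_apply, smul_eq_mul, hs k l i j, mul_comm]).trans this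

end mat

end Pool.Agent.Lib.N86
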